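import Pool.Agent.Helper39.EK.E1a
import Pool.Agent.Helper99.CK.Montel
import Pool.Agent.Helper99.CK.Hurwitz

/-!
The class of the exterior maps `φ z = z⁻¹ + β z`, `β 0 = 0`, is compact for the locally uniform
convergence of `β` on the unit disc.
-/

set_option autoImplicit false

open Complex MeasureTheory Metric Set Filter Topology
open scoped Real ComplexConjugate

namespace Pool.Agent.Helper43.CK

open Pool.Agent.Helper39.Area Pool.Agent.Helper52.EK Pool.Agent.Helper39.EK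

variable {β : ℂ → ℂ}

/-- upper bound for `N` -/
theorem N_le (h : Ext β) {z : ℂ} (hz : ‖z‖ < 1) : ‖N β z‖ ≤ (1 - ‖z‖ ^ 2)⁻¹ := by
  have hz1 : z ∈ ball (0:ℂ) 1 := by simpa using hz
  obtain ⟨F, hF0, hF, hexp⟩ := exists_log h hz1
  have h1 := log_bound h hz1 hF hF0 hexp
  have h2 : 0 < 1 - ‖z‖ ^ 2 := by nlinarith [norm_nonneg z]
  rw [← qq_self, ← hexp z hz1, Complex.norm_exp]
  have h3 : (F z).re ≤ ‖F z‖ := Complex.re_le_norm (F z)
  calc Real.exp (F z).re ≤ Real.exp (Real.log ((1 - ‖z‖ ^ 2)⁻¹)) := by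
        rw [Real.log_inv]
        exact Real.exp_le_exp.mpr (by linarith)
    _ = (1 - ‖z‖ ^ 2)⁻¹ := Real.exp_log (by positivity)

/-- local bound of the derivative -/
theorem deriv_beta_le (h : Ext β) {r : ℝ} (hr : 0 < r) (hr1 : r < 1) {z : ℂ} (hz : ‖z‖ ≤ r) :
    ‖deriv β z‖ ≤ ((1 - r ^ 2)⁻¹ + 1) / r ^ 2 := by
  have hd : DifferentiableOn ℂ (deriv β) (ball 0 1) := h.diff.deriv isOpen_ball
  have h1r : 0 < 1 - r ^ 2 := by nlinarith
  refine Complex.norm_le_of_forall_mem_frontier_norm_le (U := ball (0:ℂ) r) isBounded_ball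
    (f := deriv β) ?_ ?_ ?_
  · refine DifferentiableOn.diffContOnCl ?_
    rw [closure_ball _ hr.ne']
    exact hd.mono (closedBall_subset_ball hr1)
  · intro w hw
    rw [frontier_ball _ hr.ne', mem_sphere, dist_zero_right] at hw
    have h2 := N_le h (z := w) (by rw [hw]; exact hr1)
    rw [hw] at h2
    have h3 : w ^ 2 * deriv β w = 1 - N β w := by rw [N]; ring
    have h4 : r ^ 2 * ‖deriv β w‖ ≤ (1 - r ^ 2)⁻¹ + 1 := by
      calc r ^ 2 * ‖deriv β w‖ = ‖w ^ 2 * deriv β w‖ := by rw [norm_mul, norm_pow, hw]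
        _ = ‖1 - N β w‖ := by rw [h3]
        _ ≤ ‖(1:ℂ)‖ + ‖N β w‖ := norm_sub_le _ _
        _ ≤ (1 - r ^ 2)⁻¹ + 1 := by rw [norm_one]; linarith
    rw [le_div_iff₀ (by positivity)]
    linarith
  · rw [closure_ball _ hr.ne', mem_closedBall, dist_zero_right]
    exact hz

/-- local bound of `β` -/
theorem beta_le (h : Ext β) (h0 : β 0 = 0) {r : ℝ} (hr : 0 < r) (hr1 : r < 1) {z : ℂ}
    (hz : ‖z‖ ≤ r) : ‖β z‖ ≤ ((1 - r ^ 2)⁻¹ + 1) / r ^ 2 * r := by
  have h1r : 0 < 1 - r ^ 2 := by nlinarith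
  have hC : 0 ≤ ((1 - r ^ 2)⁻¹ + 1) / r ^ 2 := by positivity
  have h1 : ‖β z - β 0‖ ≤ ((1 - r ^ 2)⁻¹ + 1) / r ^ 2 * ‖z - 0‖ := by
    refine (convex_closedBall (0:ℂ) r).norm_image_sub_le_of_norm_deriv_le (𝕜 := ℂ) (f := β)
      (fun w hw => ?_) (fun w hw => ?_) ?_ ?_
    · exact h.diff.differentiableAt (isOpen_ball.mem_nhds (closedBall_subset_ball hr1 hw))
    · exact deriv_beta_le h hr hr1 (by simpa using hw)
    · simpa using hr.le
    · simpa using hz
  rw [h0, sub_zero, sub_zero] at h1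
  exact h1.trans (mul_le_mul_of_nonneg_left hz hC)

/-- the values `N (β n) z` converge -/
theorem tendsto_N {ι : Type*} {l : Filter ι} [l.NeBot] {b : ι → ℂ → ℂ} {γ : ℂ → ℂ}
    (hb : ∀ n, DifferentiableOn ℂ (b n) (ball 0 1))
    (hlim : TendstoLocallyUniformlyOn b γ l (ball 0 1)) {z : ℂ} (hz : z ∈ ball (0:ℂ) 1) :
    Tendsto (fun n => N (b n) z) l (𝓝 (N γ z)) := by
  have h1 := (hlim.deriv (Eventually.of_forall hb) isOpen_ball).tendsto_at hz
  exact (h1.const_mul (z ^ 2)).const_sub 1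

/-- a locally uniform limit of members of the class is a member -/
theorem ext_of_tendsto {ι : Type*} {l : Filter ι} [l.NeBot] {b : ι → ℂ → ℂ} {γ : ℂ → ℂ}
    (hb : ∀ n, Ext (b n)) (hlim : TendstoLocallyUniformlyOn b γ l (ball 0 1)) : Ext γ := by
  have hd : DifferentiableOn ℂ γ (ball 0 1) :=
    hlim.differentiableOn (Eventually.of_forall fun n => (hb n).diff) isOpen_ball
  have hN : ∀ z ∈ ball (0:ℂ) 1, N γ z ≠ 0 := by
    intro z hz h0
    have hz1 : ‖z‖ < 1 := by simpa using hz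
    have h1 := (tendsto_N (fun n => (hb n).diff) hlim hz).norm
    have h2 : 1 - ‖z‖ ^ 2 ≤ ‖N γ z‖ :=
      ge_of_tendsto h1 (Eventually.of_forall fun n => N_ge (hb n) hz1)
    rw [h0, norm_zero] at h2
    nlinarith [norm_nonneg z]
  refine ⟨hd, ?_, fun z hz => hN z hz⟩
  intro ζ ω hζ hω hζ0 hω0 he
  by_contra hne
  -- a ball around `ω` without `0` and `ζ`
  have hV : IsOpen (ball (0:ℂ) 1 \ {0, ζ}) := isOpen_ball.sdiff (Set.toFinite _).isClosed
  have hωV : ω ∈ ball (0:ℂ) 1 \ {0, ζ} := by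
    refine ⟨hω, ?_⟩
    simp only [mem_insert_iff, mem_singleton_iff, not_or]
    exact ⟨hω0, fun h => hne h.symm⟩
  obtain ⟨R, hR, hRV⟩ := Metric.isOpen_iff.1 hV ω hωV
  have hRb : ball ω R ⊆ ball (0:ℂ) 1 := fun z hz => (hRV hz).1
  have hR0 : ∀ z ∈ ball ω R, z ≠ 0 := fun z hz h => (hRV hz).2 (by simp [h])
  have hRζ : ∀ z ∈ ball ω R, z ≠ ζ := fun z hz h => (hRV hz).2 (by simp [h])
  have hζlim : Tendsto (fun n => phi (b n) ζ) l (𝓝 (phi γ ζ)) :=
    (hlim.tendsto_at hζ).const_add _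
  have hlim2 : TendstoLocallyUniformlyOn (fun n z => phi (b n) z - phi (b n) ζ)
      (fun z => phi γ z - phi γ ζ) l (ball ω R) := by
    have h1 : TendstoLocallyUniformlyOn (fun n z => phi (b n) z) (fun z => phi γ z) l
        (ball ω R) := by
      have h2 := hlim.mono hRb
      rw [Metric.tendstoLocallyUniformlyOn_iff] at h2 ⊢
      intro ε hε x hx
      obtain ⟨t, ht, h3⟩ := h2 ε hε x hx
      refine ⟨t, ht, h3.mono fun n hn y hy => ?_⟩
      have := hn y hy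
      simpa [phi] using this
    have h4 : TendstoLocallyUniformlyOn (fun n (_ : ℂ) => phi (b n) ζ) (fun _ => phi γ ζ) l
        (ball ω R) := by
      rw [Metric.tendstoLocallyUniformlyOn_iff]
      intro ε hε x hx
      refine ⟨ball ω R, self_mem_nhdsWithin, ?_⟩
      have h5 := (Metric.tendsto_nhds.1 hζlim) ε hε
      refine h5.mono fun n hn y _ => ?_
      rw [dist_comm]
      exact hn
    exact h1.fun_sub h4
  have hdn : ∀ᶠ n in l, DifferentiableOn ℂ (fun z => phi (b n) z - phi (b n) ζ) (ball ω R) := by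
    refine Eventually.of_forall fun n => ?_
    intro z hz
    exact ((hasDerivAt_phi (hb n).diff (hRb hz) (hR0 z hz)).sub_const
      _).differentiableAt.differentiableWithinAt
  have hne2 : ∃ᶠ n in l, ∀ z ∈ ball ω R, phi (b n) z - phi (b n) ζ ≠ 0 := by
    refine (Eventually.of_forall fun n z hz h0 => ?_).frequently
    exact hRζ z hz ((hb n).inj z ζ (hRb hz) hζ (hR0 z hz) hζ0 (sub_eq_zero.1 h0))
  have hz : phi γ ω - phi γ ζ = 0 := by
    rw [sub_eq_zero]
    exact he.symm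
  have h6 := Pool.Agent.Helper99.CK.hurwitz_local hR hdn hne2 hlim2 hz
  have h7 : HasDerivAt (fun z => phi γ z - phi γ ζ) (dphi γ ω) ω :=
    (hasDerivAt_phi hd hω hω0).sub_const _
  have h8 : HasDerivAt (fun z => phi γ z - phi γ ζ) 0 ω :=
    (hasDerivAt_const ω (0:ℂ)).congr_of_eventuallyEq h6
  have h9 := h7.unique h8
  apply hN ω hω
  have h10 : N γ ω = -(ω ^ 2) * dphi γ ω := by
    rw [N, dphi]
    have : ω ^ 2 ≠ 0 := pow_ne_zero 2 hω0
    field_simp
    ring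
  rw [h10, h9, mul_zero]

/-- **Compactness of the class.** -/
theorem cls_compact (b : ℕ → ℂ → ℂ) (hb : ∀ n, Ext (b n)) (h0 : ∀ n, b n 0 = 0) :
    ∃ φ : ℕ → ℕ, StrictMono φ ∧ ∃ γ : ℂ → ℂ, Ext γ ∧ γ 0 = 0 ∧
      TendstoLocallyUniformlyOn (fun n => b (φ n)) γ atTop (ball 0 1) := by
  obtain ⟨φ, γ, hφ, -, hlim⟩ := Pool.Agent.Helper99.CK.montel (U := ball (0:ℂ) 1) isOpen_ball
    (f := b) (fun n => (hb n).diff) (by
      intro K hK hKc
      by_cases hKe : K.Nonempty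
      · obtain ⟨x, hxK, hx⟩ := hKc.exists_isMaxOn hKe continuous_norm.continuousOn
        have hx1 : ‖x‖ < 1 := by simpa using hK hxK
        obtain ⟨r, hxr, hr1⟩ := exists_between hx1
        have hr : 0 < r := (norm_nonneg x).trans_lt hxr
        refine ⟨((1 - r ^ 2)⁻¹ + 1) / r ^ 2 * r, fun n z hz => ?_⟩
        exact beta_le (hb n) (h0 n) hr hr1 ((hx hz).trans hxr.le)
      · rw [Set.not_nonempty_iff_eq_empty] at hKe
        exact ⟨0, fun n z hz => by simp [hKe] at hz⟩)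
  refine ⟨φ, hφ, γ, ext_of_tendsto (fun n => hb (φ n)) hlim, ?_, hlim⟩
  have h1 := hlim.tendsto_at (mem_ball_self one_pos)
  have h2 : (fun n => b (φ n) 0) = fun _ => (0:ℂ) := by
    funext n
    exact h0 (φ n)
  rw [h2] at h1
  exact tendsto_nhds_unique h1 tendsto_const_nhds

end Pool.Agent.Helper43.CK
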