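import Pool.Agent.Helper43.CK.Cls

/-!
The area functional `J β = ∫ ‖N β z‖ ^ (-k) w z` over the unit disc is continuous on the compact
class and attains its maximum.
-/

set_option autoImplicit false

open Complex MeasureTheory Metric Set Filter Topology
open scoped Real ComplexConjugate

namespace Pool.Agent.Helper43.CK

open Pool.Agent.Helper39.Area Pool.Agent.Helper52.EK Pool.Agent.Helper39.EK

/-- the area functional -/
noncomputable def Jw (k : ℝ) (w : ℂ → ℝ) (β : ℂ → ℂ) : ℝ :=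
  ∫ z in ball (0:ℂ) 1, ‖N β z‖ ^ (-k) * w z

variable {β : ℂ → ℂ} {k : ℝ} {w : ℂ → ℝ}

theorem N_contOn (h : Ext β) : ContinuousOn (N β) (ball 0 1) := by
  have h1 : ContinuousOn (deriv β) (ball 0 1) := (h.diff.deriv isOpen_ball).continuousOn
  unfold N
  fun_prop

theorem N_pow_contOn (h : Ext β) (k : ℝ) : ContinuousOn (fun z => ‖N β z‖ ^ (-k)) (ball 0 1) := by
  intro z hz
  have h1 := (N_contOn h z hz).norm
  exact h1.rpow_const (Or.inl (norm_ne_zero_iff.2 (h.ne z hz)))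

theorem N_pow_le (h : Ext β) (hk : 0 ≤ k) {z : ℂ} (hz : z ∈ ball (0:ℂ) 1) :
    ‖N β z‖ ^ (-k) ≤ (1 - ‖z‖ ^ 2) ^ (-k) := by
  have hz1 : ‖z‖ < 1 := by simpa using hz
  have h2 : 0 < 1 - ‖z‖ ^ 2 := by nlinarith [norm_nonneg z]
  exact Real.rpow_le_rpow_of_nonpos h2 (N_ge h hz1) (by linarith)

theorem Jw_aesm (h : Ext β) (k : ℝ)
    (hw : AEStronglyMeasurable w (volume.restrict (ball (0:ℂ) 1))) :
    AEStronglyMeasurable (fun z => ‖N β z‖ ^ (-k) * w z) (volume.restrict (ball (0:ℂ) 1)) :=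
  ((N_pow_contOn h k).aestronglyMeasurable measurableSet_ball).mul hw

theorem Jw_integrable (h : Ext β) (hk : 0 ≤ k)
    (hw : AEStronglyMeasurable w (volume.restrict (ball (0:ℂ) 1)))
    (hw0 : ∀ z ∈ ball (0:ℂ) 1, 0 ≤ w z)
    (hint : IntegrableOn (fun z : ℂ => (1 - ‖z‖ ^ 2) ^ (-k) * w z) (ball 0 1)) :
    IntegrableOn (fun z => ‖N β z‖ ^ (-k) * w z) (ball 0 1) := by
  refine Integrable.mono' hint (Jw_aesm h k hw) ?_
  filter_upwards [ae_restrict_mem measurableSet_ball] with z hz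
  have h1 : 0 ≤ ‖N β z‖ ^ (-k) := Real.rpow_nonneg (norm_nonneg _) _
  rw [Real.norm_of_nonneg (mul_nonneg h1 (hw0 z hz))]
  exact mul_le_mul_of_nonneg_right (N_pow_le h hk hz) (hw0 z hz)

theorem Jw_le (h : Ext β) (hk : 0 ≤ k)
    (hw : AEStronglyMeasurable w (volume.restrict (ball (0:ℂ) 1)))
    (hw0 : ∀ z ∈ ball (0:ℂ) 1, 0 ≤ w z)
    (hint : IntegrableOn (fun z : ℂ => (1 - ‖z‖ ^ 2) ^ (-k) * w z) (ball 0 1)) :
    Jw k w β ≤ ∫ z in ball (0:ℂ) 1, (1 - ‖z‖ ^ 2) ^ (-k) * w z := by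
  refine setIntegral_mono_on (Jw_integrable h hk hw hw0 hint) hint measurableSet_ball ?_
  intro z hz
  exact mul_le_mul_of_nonneg_right (N_pow_le h hk hz) (hw0 z hz)

/-- continuity of the functional -/
theorem Jw_tendsto {ι : Type*} {l : Filter ι} [l.NeBot] [l.IsCountablyGenerated]
    {b : ι → ℂ → ℂ} {γ : ℂ → ℂ} (hk : 0 ≤ k)
    (hw : AEStronglyMeasurable w (volume.restrict (ball (0:ℂ) 1)))
    (hw0 : ∀ z ∈ ball (0:ℂ) 1, 0 ≤ w z)
    (hint : IntegrableOn (fun z : ℂ => (1 - ‖z‖ ^ 2) ^ (-k) * w z) (ball 0 1))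
    (hb : ∀ n, Ext (b n)) (hlim : TendstoLocallyUniformlyOn b γ l (ball 0 1)) :
    Tendsto (fun n => Jw k w (b n)) l (𝓝 (Jw k w γ)) := by
  have hγ := ext_of_tendsto hb hlim
  unfold Jw
  refine tendsto_integral_filter_of_dominated_convergence
    (fun z : ℂ => (1 - ‖z‖ ^ 2) ^ (-k) * w z) ?_ ?_ hint ?_
  · exact Eventually.of_forall fun n => Jw_aesm (hb n) k hw
  · refine Eventually.of_forall fun n => ?_
    filter_upwards [ae_restrict_mem measurableSet_ball] with z hz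
    have h1 : 0 ≤ ‖N (b n) z‖ ^ (-k) := Real.rpow_nonneg (norm_nonneg _) _
    rw [Real.norm_of_nonneg (mul_nonneg h1 (hw0 z hz))]
    exact mul_le_mul_of_nonneg_right (N_pow_le (hb n) hk hz) (hw0 z hz)
  · filter_upwards [ae_restrict_mem measurableSet_ball] with z hz
    have h1 := (tendsto_N (fun n => (hb n).diff) hlim hz).norm
    have h2 : ‖N γ z‖ ≠ 0 := norm_ne_zero_iff.2 (hγ.ne z hz)
    exact (h1.rpow_const (Or.inl h2)).mul_const _

/-- **Existence of the maximiser.** -/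
theorem exists_max (hk : 0 ≤ k)
    (hw : AEStronglyMeasurable w (volume.restrict (ball (0:ℂ) 1)))
    (hw0 : ∀ z ∈ ball (0:ℂ) 1, 0 ≤ w z)
    (hint : IntegrableOn (fun z : ℂ => (1 - ‖z‖ ^ 2) ^ (-k) * w z) (ball 0 1)) :
    ∃ β : ℂ → ℂ, Ext β ∧ β 0 = 0 ∧ ∀ γ : ℂ → ℂ, Ext γ → Jw k w γ ≤ Jw k w β := by
  set S : Set ℝ := {x | ∃ γ : ℂ → ℂ, Ext γ ∧ γ 0 = 0 ∧ Jw k w γ = x} with hS
  have hne : S.Nonempty := by
    refine ⟨Jw k w (fun _ => 0), fun _ => 0, ⟨?_, ?_, ?_⟩, rfl, rfl⟩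
    · exact differentiableOn_const _
    · intro ζ ω _ _ _ _ he
      simpa using he
    · intro ζ _
      simp
  have hbd : BddAbove S := by
    refine ⟨∫ z in ball (0:ℂ) 1, (1 - ‖z‖ ^ 2) ^ (-k) * w z, ?_⟩
    rintro x ⟨γ, hγ, -, rfl⟩
    exact Jw_le hγ hk hw hw0 hint
  obtain ⟨u, -, hu, huS⟩ := exists_seq_tendsto_sSup hne hbd
  choose b hb hb0 hJ using huS
  obtain ⟨φ, hφ, γ, hγ, hγ0, hlim⟩ := cls_compact b hb hb0
  have h1 : Tendsto (fun n => Jw k w (b (φ n))) atTop (𝓝 (Jw k w γ)) :=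
    Jw_tendsto hk hw hw0 hint (fun n => hb (φ n)) hlim
  have h2 : Tendsto (fun n => Jw k w (b (φ n))) atTop (𝓝 (sSup S)) := by
    have h3 := hu.comp hφ.tendsto_atTop
    refine h3.congr fun n => ?_
    exact (hJ (φ n)).symm
  have h3 : Jw k w γ = sSup S := tendsto_nhds_unique h1 h2
  refine ⟨γ, hγ, hγ0, fun δ hδ => ?_⟩
  -- normalise `δ`
  have h4 : Jw k w δ = Jw k w (fun z => δ z - δ 0) := by
    unfold Jw
    refine setIntegral_congr_fun measurableSet_ball fun z hz => ?_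
    have h5 : N (fun z => δ z - δ 0) z = N δ z := by
      unfold N
      rw [deriv_sub_const]
    simp only [h5]
  rw [h4, h3]
  refine le_csSup hbd ⟨fun z => δ z - δ 0, ⟨hδ.diff.sub_const _, ?_, ?_⟩, sub_self _, rfl⟩
  · intro ζ ω h1 h2 h3 h4 h5
    refine hδ.inj ζ ω h1 h2 h3 h4 ?_
    linear_combination h5
  · intro ζ hζ
    rw [deriv_sub_const]
    exact hδ.ne ζ hζ

end Pool.Agent.Helper43.CK
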